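import Pool.Agent.Run7.h721.KL3.Iface

/-!
# Project KL3, pieces START and UP
-/

set_option linter.unusedSectionVars false
set_option linter.unusedVariables false
set_option maxHeartbeats 1000000

namespace Pool.Agent.Run7.h929.KL3

open Finset
open Pool.Agent.N35.HL
open Pool.Agent.Run7.h721.KL3

/-- a good block stays good when the slope denominator is multiplied -/
theorem good_mul {A R H : Type} [Fintype A] [Fintype H] {O : Out A R H} {k K Rd : ℕ}
    {φ q Dl L : ℝ} (hO : O.Good k K φ q Dl L Rd) {m : ℕ} (hm : 1 ≤ m) :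
    O.Good k K φ q Dl L (Rd * m) where
  hq := hO.hq
  hqD := hO.hqD
  hL := hO.hL
  hRd := Nat.mul_pos hO.hRd hm
  tie := hO.tie
  hD := hO.hD
  slopes := fun c => by
    obtain ⟨z, hz⟩ := hO.slopes c
    refine ⟨z * m, ?_⟩
    push_cast
    rw [← hz]
    ring
  bs := hO.bs
  bt := hO.bt
  bX := hO.bX
  bxs := hO.bxs
  g1 := hO.g1
  g2 := hO.g2
  w := hO.w
  level := hO.level
  real := hO.real
  rd1 := hO.rd1
  rd2 := hO.rd2
  inj := hO.inj
  dd := hO.dd
  own := hO.own
  far := hO.far
  dich := hO.dich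
  th := fun e c h h1 h2 h3 => by
    refine (hO.th e c h h1 h2 h3).trans ?_
    have hmr : (1:ℝ) ≤ m := by exact_mod_cast hm
    have hR : (0:ℝ) ≤ Rd := by positivity
    push_cast
    apply mul_le_mul_of_nonneg_right _ (abs_nonneg _)
    nlinarith
  slots := hO.slots

theorem t_START : S_START := by
  intro x
  refine ⟨le_rfl, le_rfl, le_rfl, Bool, Unit, Unit, inferInstance, inferInstance, inferInstance,
    Pool.Agent.N35.HL.start, 0, 1, ?_, by simp, by simp, by simp⟩
  have h1 := good_mul (start_good (φ := 1 / (51200 * ((1:ℕ):ℝ) * ((1:ℕ):ℝ)))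
    (by push_cast; positivity)) (m := 2 ^ x) Nat.one_le_two_pow
  have e1 : 2 ^ (x + 1) = 2 * 2 ^ x := by rw [pow_succ]; ring
  rw [e1]
  convert h1 using 1 <;> norm_num

theorem t_UP : S_UP := by
  intro D N E P Q T L Rd h hQ hL
  classical
  obtain ⟨hP, hE, hDD, A, R, H, _, _, _, O, k, K, hO, hA, hR, hH⟩ := h
  choose n hn1 hn2 hn3 using hO.nD
  -- natural slopes
  have hs : ∀ c, ∃ m : ℕ, (m : ℝ) = O.s c * Rd + L * Rd := by
    intro c
    obtain ⟨z, hz⟩ := hO.slopes c
    have h1 : O.s c * Rd + L * Rd = ((z + L * Rd : ℤ) : ℝ) := by push_cast; rw [← hz]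
    have h2 : (0:ℝ) ≤ ((z + L * Rd : ℤ) : ℝ) := by
      rw [← h1]
      have := (abs_le.mp (hO.bs c)).1
      have hR0 : (0:ℝ) ≤ (Rd:ℝ) := by positivity
      have := mul_le_mul_of_nonneg_right this hR0
      linarith
    have h3 : 0 ≤ z + L * Rd := by exact_mod_cast h2
    refine ⟨(z + L * Rd).toNat, ?_⟩
    rw [h1]
    have h4 : (((z + L * Rd).toNat : ℕ) : ℤ) = z + L * Rd := Int.toNat_of_nonneg h3
    rw [← h4]; push_cast; rfl
  choose σ hσ using hs
  set J := Nat.log 2 (12 * Rd) + 1 with hJ
  -- the classes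
  have hmaps : ∀ e ∈ (Finset.univ : Finset R), Nat.log 2 (n e) ∈ Finset.range J := by
    intro e _
    rw [Finset.mem_range, hJ]
    have := Nat.log_mono_right (b := 2) (hn3 e)
    omega
  have hJ0 : 0 < J := by omega
  have hcard : E = ∑ j ∈ Finset.range J,
      (Finset.univ.filter (fun e : R => Nat.log 2 (n e) = j)).card := by
    rw [← hR, ← Finset.card_univ]
    exact Finset.card_eq_sum_card_fiberwise hmaps
  obtain ⟨j, hj, hj2⟩ : ∃ j ∈ Finset.range J,
      E ≤ (Finset.univ.filter (fun e : R => Nat.log 2 (n e) = j)).card * J := by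
    by_contra hcon
    push Not at hcon
    have h1 : ∑ j ∈ Finset.range J,
        (Finset.univ.filter (fun e : R => Nat.log 2 (n e) = j)).card * J <
        ∑ _j ∈ Finset.range J, E :=
      Finset.sum_lt_sum_of_nonempty (Finset.nonempty_range_iff.mpr hJ0.ne') hcon
    rw [← Finset.sum_mul, ← hcard] at h1
    simp only [Finset.sum_const, Finset.card_range, smul_eq_mul] at h1
    rw [mul_comm] at h1
    exact lt_irrefl _ h1
  set S : R → Prop := fun e => Nat.log 2 (n e) = j with hS
  have hScard : Fintype.card {e : R // S e} =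
      (Finset.univ.filter (fun e : R => Nat.log 2 (n e) = j)).card := Fintype.card_subtype S
  have hpos : 1 ≤ (Finset.univ.filter (fun e : R => Nat.log 2 (n e) = j)).card := by
    by_contra h1
    have h2 : (Finset.univ.filter (fun e : R => Nat.log 2 (n e) = j)).card = 0 := by omega
    rw [h2, zero_mul] at hj2
    omega
  have hne : ∃ e, S e := by
    obtain ⟨e, he⟩ := Finset.card_pos.mp hpos
    exact ⟨e, (Finset.mem_filter.mp he).2⟩
  have hgood := hO.inn (Q := Q) rfl hQ hL σ hσ (2 ^ j) Nat.one_le_two_pow S hne (by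
    intro e he
    rw [← hn1 e]
    have he' : Nat.log 2 (n e) = j := he
    have h1 : 2 ^ j ≤ n e := by
      rw [← he']; exact Nat.pow_log_le_self 2 (by have := hn2 e; omega)
    have h2 : n e ≤ 2 * 2 ^ j := by
      have := Nat.lt_pow_succ_log_self (b := 2) (by norm_num) (n e)
      rw [he', pow_succ] at this
      omega
    constructor
    · exact_mod_cast h1
    · exact_mod_cast h2)
  refine ⟨2 ^ j, Fintype.card {e : R // S e}, ⟨hP, by rw [hScard]; exact hpos, A, {e : R // S e}, H,
    inferInstance, inferInstance, inferInstance, O.inn Rd L σ S, k, hgood, hA, rfl, hH⟩, ?_⟩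
  rw [hScard]
  exact hj2

end Pool.Agent.Run7.h929.KL3
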